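import Mathlib.RingTheory.MvPolynomial.Homogeneous
import Mathlib.LinearAlgebra.Dimension.Finite
import Mathlib.LinearAlgebra.FiniteDimensional.Lemmas
import Mathlib.Data.Sym.Card
import Mathlib.Data.Complex.Basic
import Mathlib.Tactic

/-!
MP_1eaf4f_ag: concise cubics whose apolar ideal has many minimal cubic generators.

For `T = ∑_{i ≤ j} Y_{ij} X_i X_j` with `a` variables `X_i` all cubic monomials in the `x_i` lie in
`Ann(T)` and they are linearly independent modulo `S_1 · Ann(T)_2`. So there are at least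
`(a+2 choose 3)` minimal cubic generators, while the number of variables is `a + (a+1 choose 2)`.
-/

set_option autoImplicit false

namespace Pool.Agent.Results.MP_1eaf4f_ag.ManyCubicGenerators

open MvPolynomial

/-- The apolarity action `f ⌟ F` of `f ∈ ℂ[x_1, …, x_m]` on `F ∈ ℂ[X_1, …, X_m]`: the variable `x_i`
acts as `∂ / ∂ X_i`, so the monomial `x^a` sends `X^b` to `∏ i, b_i (b_i - 1) ⋯ (b_i - a_i + 1)`
times `X^(b - a)` (which is `0` unless `a ≤ b`). -/
noncomputable def contract {m : ℕ} (f F : MvPolynomial (Fin m) ℂ) : MvPolynomial (Fin m) ℂ :=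
  ∑ a ∈ f.support, ∑ b ∈ F.support,
    monomial (b - a) (coeff a f * coeff b F * ∏ i, ((b i).descFactorial (a i) : ℂ))

lemma coeff_contract {m : ℕ} (f F : MvPolynomial (Fin m) ℂ) (c : Fin m →₀ ℕ) :
    coeff c (contract f F) = ∑ a ∈ f.support, coeff a f * coeff (a + c) F *
      ∏ i, (((a + c) i).descFactorial (a i) : ℂ) := by
  rw [contract, coeff_sum]
  refine Finset.sum_congr rfl fun a _ => ?_
  rw [coeff_sum]
  have h : ∀ b ∈ F.support, b ≠ a + c →
      coeff c (monomial (b - a) (coeff a f * coeff b F *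
        ∏ i, ((b i).descFactorial (a i) : ℂ))) = 0 := by
    intro b _ hb
    rw [coeff_monomial]
    split_ifs with h1
    · have : ¬ a ≤ b := by
        intro hab
        apply hb
        rw [← h1, add_tsub_cancel_of_le hab]
      rw [Finsupp.le_def] at this
      push Not at this
      obtain ⟨i, hi⟩ := this
      rw [Finset.prod_eq_zero (Finset.mem_univ i), mul_zero]
      rw [Nat.descFactorial_eq_zero_iff_lt.mpr hi, Nat.cast_zero]
    · rfl
  by_cases hs : a + c ∈ F.support
  · rw [Finset.sum_eq_single_of_mem (a + c) hs h, coeff_monomial, if_pos (by simp)]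
  · rw [Finset.sum_eq_zero]
    · rw [notMem_support_iff.mp hs]
      ring
    · intro b hb
      exact h b hb (fun h' => hs (h' ▸ hb))

lemma coeff_contract' {m : ℕ} (f F : MvPolynomial (Fin m) ℂ) (c : Fin m →₀ ℕ) :
    coeff c (contract f F) = ∑ b ∈ F.support, if c ≤ b then coeff (b - c) f * coeff b F *
      ∏ i, ((b i).descFactorial ((b - c) i) : ℂ) else 0 := by
  rw [contract, Finset.sum_comm, coeff_sum]
  refine Finset.sum_congr rfl fun b _ => ?_
  rw [coeff_sum]
  have h : ∀ a ∈ f.support, ¬ (c ≤ b ∧ a = b - c) →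
      coeff c (monomial (b - a) (coeff a f * coeff b F *
        ∏ i, ((b i).descFactorial (a i) : ℂ))) = 0 := by
    intro a _ ha
    rw [coeff_monomial]
    split_ifs with h1
    · have : ¬ a ≤ b := by
        intro hab
        apply ha
        rw [← h1]
        exact ⟨tsub_le_self, (tsub_tsub_cancel_of_le hab).symm⟩
      rw [Finsupp.le_def] at this
      push Not at this
      obtain ⟨i, hi⟩ := this
      rw [Finset.prod_eq_zero (Finset.mem_univ i), mul_zero]
      rw [Nat.descFactorial_eq_zero_iff_lt.mpr hi, Nat.cast_zero]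
    · rfl
  split_ifs with hcb
  · by_cases hs : b - c ∈ f.support
    · rw [Finset.sum_eq_single_of_mem (b - c) hs (fun a ha hne => h a ha (fun h' => hne h'.2)),
        coeff_monomial, if_pos (tsub_tsub_cancel_of_le hcb)]
    · rw [Finset.sum_eq_zero]
      · rw [notMem_support_iff.mp hs]
        ring
      · intro a ha
        exact h a ha (fun h' => hs (h'.2 ▸ ha))
  · exact Finset.sum_eq_zero fun a ha => h a ha (fun h' => hcb h'.1)

/-- `f ↦ f ⌟ F` is linear. -/
noncomputable def contractₗ {m : ℕ} (F : MvPolynomial (Fin m) ℂ) :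
    MvPolynomial (Fin m) ℂ →ₗ[ℂ] MvPolynomial (Fin m) ℂ where
  toFun f := contract f F
  map_add' f g := by
    ext c
    rw [coeff_add, coeff_contract', coeff_contract', coeff_contract', ← Finset.sum_add_distrib]
    refine Finset.sum_congr rfl fun b _ => ?_
    split_ifs
    · rw [coeff_add]
      ring
    · ring
  map_smul' r f := by
    ext c
    rw [RingHom.id_apply, coeff_smul, coeff_contract', coeff_contract', smul_eq_mul,
      Finset.mul_sum]
    refine Finset.sum_congr rfl fun b _ => ?_
    split_ifs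
    · rw [coeff_smul, smul_eq_mul]
      ring
    · ring

/-- The degree `d` part `Ann(T)_d` of the apolar ideal of `T`: the forms `f` of degree `d` with
`f ⌟ T = 0`. -/
noncomputable def annDeg {m : ℕ} (T : MvPolynomial (Fin m) ℂ) (d : ℕ) :
    Submodule ℂ (MvPolynomial (Fin m) ℂ) :=
  homogeneousSubmodule (Fin m) ℂ d ⊓ LinearMap.ker (contractₗ T)

/-- The space `S_1 · Ann(T)_2` of cubic forms. -/
noncomputable def linMul {m : ℕ} (T : MvPolynomial (Fin m) ℂ) :
    Submodule ℂ (MvPolynomial (Fin m) ℂ) :=
  Submodule.span ℂ {h | ∃ ℓ g : MvPolynomial (Fin m) ℂ, ℓ.IsHomogeneous 1 ∧ g ∈ annDeg T 2 ∧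
    h = ℓ * g}

/-- The number `dim Ann(T)_3 - dim (S_1 · Ann(T)_2)` of minimal cubic generators of `Ann(T)`. -/
noncomputable def cubicGens {m : ℕ} (T : MvPolynomial (Fin m) ℂ) : ℤ :=
  (Module.finrank ℂ (annDeg T 3) : ℤ) - Module.finrank ℂ (linMul T)

/-- `T` is concise: its apolar ideal contains no nonzero linear form. -/
def Concise {m : ℕ} (T : MvPolynomial (Fin m) ℂ) : Prop :=
  ∀ ℓ : MvPolynomial (Fin m) ℂ, ℓ.IsHomogeneous 1 → contract ℓ T = 0 → ℓ = 0

lemma mem_annDeg {m : ℕ} (T f : MvPolynomial (Fin m) ℂ) (d : ℕ) :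
    f ∈ annDeg T d ↔ f.IsHomogeneous d ∧ contract f T = 0 := Iff.rfl

section construction

variable {a m : ℕ} (e : Fin a ⊕ Sym2 (Fin a) ≃ Fin m)

/-- exponent of a monomial in the variables `x_i` -/
noncomputable def ex (s : Multiset (Fin a)) : Fin m →₀ ℕ :=
  (s.map (fun i => Finsupp.single (e (Sum.inl i)) 1)).sum

lemma ex_apply_inl (s : Multiset (Fin a)) (i : Fin a) : ex e s (e (Sum.inl i)) = s.count i := by
  induction s using Multiset.induction_on with
  | empty => simp [ex]
  | cons j s ih =>
    rw [ex, Multiset.map_cons, Multiset.sum_cons, Finsupp.add_apply, ← ex, ih,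
      Finsupp.single_apply, Multiset.count_cons]
    simp only [EmbeddingLike.apply_eq_iff_eq, Sum.inl.injEq]
    by_cases h : j = i
    · rw [if_pos h, if_pos h.symm]; ring
    · rw [if_neg h, if_neg (fun h' => h h'.symm)]; ring

lemma ex_apply_inr (s : Multiset (Fin a)) (t : Sym2 (Fin a)) : ex e s (e (Sum.inr t)) = 0 := by
  induction s using Multiset.induction_on with
  | empty => simp [ex]
  | cons j s ih =>
    rw [ex, Multiset.map_cons, Multiset.sum_cons, Finsupp.add_apply, ← ex, ih,
      Finsupp.single_apply]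
    simp

lemma ex_degree (s : Multiset (Fin a)) : (ex e s).degree = s.card := by
  induction s using Multiset.induction_on with
  | empty => simp [ex]
  | cons j s ih =>
    rw [ex, Multiset.map_cons, Multiset.sum_cons, map_add, ← ex, ih, Finsupp.degree_single,
      Multiset.card_cons]
    ring

lemma ex_injective : Function.Injective (ex e) := by
  intro s t h
  ext i
  rw [← ex_apply_inl e, ← ex_apply_inl e, h]

/-- Every exponent without the variables `Y` comes from a multiset. -/
lemma exists_ex (b : Fin m →₀ ℕ) (hb : ∀ t, b (e (Sum.inr t)) = 0) : ∃ s, b = ex e s := by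
  refine ⟨∑ i, Multiset.replicate (b (e (Sum.inl i))) i, ?_⟩
  ext k
  obtain ⟨k, rfl⟩ := e.surjective k
  rcases k with i | t
  · rw [ex_apply_inl, Multiset.count_sum']
    simp [Multiset.count_replicate]
  · rw [ex_apply_inr, hb]

/-- exponent of the monomial `Y_{ij} X_i X_j` -/
noncomputable def eT (t : Sym2 (Fin a)) : Fin m →₀ ℕ :=
  Finsupp.single (e (Sum.inr t)) 1 + ex e (Sym2.equivMultiset _ t).1

lemma eT_apply_inr (t u : Sym2 (Fin a)) : eT e t (e (Sum.inr u)) = if t = u then 1 else 0 := by
  rw [eT, Finsupp.add_apply, ex_apply_inr, Finsupp.single_apply]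
  simp

lemma eT_apply_inl (t : Sym2 (Fin a)) (i : Fin a) :
    eT e t (e (Sum.inl i)) = (Sym2.equivMultiset _ t).1.count i := by
  rw [eT, Finsupp.add_apply, ex_apply_inl, Finsupp.single_apply]
  simp

lemma eT_injective : Function.Injective (eT e) := by
  intro s t h
  have h1 := eT_apply_inr e s s
  rw [h, eT_apply_inr] at h1
  simp only [if_true] at h1
  by_contra hne
  rw [if_neg (fun h' => hne h'.symm)] at h1
  exact absurd h1 (by norm_num)

/-- the cubic `∑ Y_{ij} X_i X_j` -/
noncomputable def TT : MvPolynomial (Fin m) ℂ := ∑ t : Sym2 (Fin a), monomial (eT e t) 1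

lemma coeff_TT (b : Fin m →₀ ℕ) : coeff b (TT e) = if ∃ t, eT e t = b then 1 else 0 := by
  rw [TT, coeff_sum]
  simp only [coeff_monomial]
  split_ifs with h
  · obtain ⟨t, rfl⟩ := h
    rw [Finset.sum_eq_single t]
    · simp
    · intro u _ hu
      rw [if_neg (fun h => hu (eT_injective e h))]
    · simp
  · push Not at h
    exact Finset.sum_eq_zero fun t _ => if_neg (h t)

lemma TT_homogeneous : (TT e).IsHomogeneous 3 := by
  apply IsHomogeneous.sum
  intro t _
  apply isHomogeneous_monomial
  rw [eT, map_add, Finsupp.degree_single, ex_degree, (Sym2.equivMultiset _ t).2]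

lemma coeff_eq_zero (g : MvPolynomial (Fin m) ℂ) (hg : contract g (TT e) = 0)
    (c : Fin m →₀ ℕ) (t : Sym2 (Fin a)) (hct : c ≤ eT e t) (huniq : ∀ u, c ≤ eT e u → u = t) :
    coeff (eT e t - c) g = 0 := by
  have h := congrArg (coeff c) hg
  rw [coeff_contract', coeff_zero] at h
  have hmem : eT e t ∈ (TT e).support := by
    rw [mem_support_iff, coeff_TT, if_pos ⟨t, rfl⟩]
    exact one_ne_zero
  rw [Finset.sum_eq_single_of_mem _ hmem, if_pos hct, coeff_TT, if_pos ⟨t, rfl⟩, mul_one] at h
  · refine (mul_eq_zero.mp h).resolve_right ?_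
    rw [Finset.prod_eq_zero_iff]
    rintro ⟨i, -, hi⟩
    rw [Nat.cast_eq_zero, Nat.descFactorial_eq_zero_iff_lt] at hi
    exact absurd hi (not_lt.mpr (tsub_le_self (a := eT e t) (b := c) i))
  · intro b hb hne
    rw [if_neg]
    intro hcb
    rw [mem_support_iff, coeff_TT] at hb
    obtain ⟨u, rfl⟩ : ∃ u, eT e u = b := by
      by_contra h'
      exact hb (if_neg h')
    exact hne (by rw [huniq u hcb])

lemma eT_sub_single (t : Sym2 (Fin a)) :
    eT e t - Finsupp.single (e (Sum.inr t)) 1 = ex e (Sym2.equivMultiset _ t).1 := by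
  rw [eT, add_tsub_cancel_left]

lemma eT_sub_ex (t : Sym2 (Fin a)) :
    eT e t - ex e (Sym2.equivMultiset _ t).1 = Finsupp.single (e (Sum.inr t)) 1 := by
  rw [eT, add_tsub_cancel_right]

lemma unique_of_single (t u : Sym2 (Fin a)) (c : Fin m →₀ ℕ)
    (h : Finsupp.single (e (Sum.inr t)) 1 + c ≤ eT e u) : u = t := by
  have h1 := h (e (Sum.inr t))
  rw [Finsupp.add_apply, Finsupp.single_eq_same, eT_apply_inr] at h1
  by_contra hne
  rw [if_neg hne] at h1
  omega

lemma unique_of_ex (s : Multiset (Fin a)) (u : Sym2 (Fin a)) (c : Fin m →₀ ℕ)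
    (h : ex e s + c ≤ eT e u) : s ≤ (Sym2.equivMultiset _ u).1 := by
  rw [Multiset.le_iff_count]
  intro i
  have h1 := h (e (Sum.inl i))
  rw [Finsupp.add_apply, ex_apply_inl, eT_apply_inl] at h1
  omega

lemma TT_concise : Concise (TT e) := by
  intro ℓ hℓ h
  ext b
  rw [coeff_zero]
  by_contra hb
  have hdeg : b.degree = 1 := by
    have := hℓ hb
    rwa [show (1 : Fin m → ℕ) = fun _ => 1 from rfl, ← Finsupp.degree_eq_weight_one] at this
  rw [Finsupp.degree_apply] at hdeg
  obtain ⟨k, rfl⟩ := (Finsupp.sum_eq_one_iff b).mp hdeg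
  obtain ⟨k, rfl⟩ := e.surjective k
  apply hb
  rcases k with i | t
  · have h1 : eT e s(i, i) = Finsupp.single (e (Sum.inl i)) 1 +
        (Finsupp.single (e (Sum.inr s(i, i))) 1 + Finsupp.single (e (Sum.inl i)) 1) := by
      have h2 : (Sym2.equivMultiset (Fin a) s(i, i)).1 = {i, i} := rfl
      rw [eT, h2, ex]
      simp only [Multiset.insert_eq_cons, Multiset.map_cons, Multiset.map_singleton,
        Multiset.sum_cons, Multiset.sum_singleton]
      abel
    have h3 := coeff_eq_zero e ℓ h
      (Finsupp.single (e (Sum.inr s(i, i))) 1 + Finsupp.single (e (Sum.inl i)) 1) s(i, i)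
      (by rw [h1]; exact le_add_self) (fun u hu => unique_of_single e _ u _ hu)
    rwa [h1, add_tsub_cancel_right] at h3
  · have h3 := coeff_eq_zero e ℓ h (ex e (Sym2.equivMultiset _ t).1) t (by rw [eT]; exact le_add_self)
      (fun u hu => by
        have h4 := unique_of_ex e _ u 0 (by rwa [add_zero])
        have h5 := Multiset.eq_of_le_of_card_le h4
          (by rw [(Sym2.equivMultiset _ u).2, (Sym2.equivMultiset _ t).2])
        exact ((Sym2.equivMultiset _).injective (Subtype.ext h5)).symm)
    rwa [eT_sub_ex] at h3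

lemma coeff_ex_eq_zero (g : MvPolynomial (Fin m) ℂ) (hg : g ∈ annDeg (TT e) 2)
    (s : Multiset (Fin a)) : coeff (ex e s) g = 0 := by
  rw [mem_annDeg] at hg
  by_contra hne
  have hdeg : (ex e s).degree = 2 := by
    have := hg.1 hne
    rwa [show (1 : Fin m → ℕ) = fun _ => 1 from rfl, ← Finsupp.degree_eq_weight_one] at this
  rw [ex_degree] at hdeg
  obtain ⟨t, ht⟩ := (Sym2.equivMultiset (Fin a)).surjective ⟨s, hdeg⟩
  have h3 := coeff_eq_zero e g hg.2 (Finsupp.single (e (Sum.inr t)) 1 + 0) t
    (by rw [eT, add_zero]; exact le_self_add) (fun u hu => unique_of_single e _ u _ hu)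
  rw [add_zero, eT_sub_single, ht] at h3
  exact hne h3

lemma contract_ex (s : Multiset (Fin a)) (hs : 3 ≤ s.card) :
    contract (monomial (ex e s) 1) (TT e) = 0 := by
  ext c
  rw [coeff_contract, coeff_zero]
  apply Finset.sum_eq_zero
  intro b hb
  have hb' : b = ex e s := by
    have := support_monomial_subset hb
    simpa using this
  rw [coeff_TT, if_neg, mul_zero, zero_mul]
  rintro ⟨u, hu⟩
  have h1 := Multiset.card_le_card (unique_of_ex e s u c (by rw [hu, hb']))
  rw [(Sym2.equivMultiset _ u).2] at h1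
  omega

lemma coeff_ex_linMul (f : MvPolynomial (Fin m) ℂ) (hf : f ∈ linMul (TT e))
    (s : Multiset (Fin a)) : coeff (ex e s) f = 0 := by
  rw [linMul] at hf
  induction hf using Submodule.span_induction with
  | mem x hx =>
    obtain ⟨ℓ, g, -, hg, rfl⟩ := hx
    rw [coeff_mul]
    apply Finset.sum_eq_zero
    rintro ⟨b, c⟩ hbc
    rw [Finset.mem_antidiagonal] at hbc
    obtain ⟨s', hs'⟩ := exists_ex e c (fun t => by
      have := congrArg (fun z => z (e (Sum.inr t))) hbc
      simp only [Finsupp.add_apply, ex_apply_inr] at this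
      omega)
    simp only
    rw [hs', coeff_ex_eq_zero e g hg s', mul_zero]
  | zero => rw [coeff_zero]
  | add x y _ _ hx hy => rw [coeff_add, hx, hy, add_zero]
  | smul r x _ hx => rw [coeff_smul, hx, smul_zero]

end construction

lemma finite_annDeg {m : ℕ} (T : MvPolynomial (Fin m) ℂ) (d : ℕ) :
    Module.Finite ℂ (annDeg T d) := by
  have h : Module.Finite ℂ (homogeneousSubmodule (Fin m) ℂ d) :=
    Module.Finite.iff_fg.mpr (homogeneousSubmodule_fg _ _ d)
  exact Submodule.finiteDimensional_of_le (inf_le_left (a := homogeneousSubmodule (Fin m) ℂ d))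

lemma contract_X_mul {m : ℕ} (T g : MvPolynomial (Fin m) ℂ) (k : Fin m) (c : Fin m →₀ ℕ) :
    coeff c (contract (X k * g) T) =
      (c k + 1) * coeff (c + Finsupp.single k 1) (contract g T) := by
  rw [coeff_contract', coeff_contract', Finset.mul_sum]
  refine Finset.sum_congr rfl fun b _ => ?_
  by_cases h : c + Finsupp.single k 1 ≤ b
  · have hc : c ≤ b := le_trans le_self_add h
    rw [if_pos hc, if_pos h]
    have h1 : b - c = Finsupp.single k 1 + (b - (c + Finsupp.single k 1)) := by
      rw [← tsub_tsub, add_tsub_cancel_of_le]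
      rw [le_tsub_iff_left hc]
      exact h
    have h2 : (∏ i, ((b i).descFactorial ((b - c) i) : ℂ)) =
        (c k + 1) * ∏ i, ((b i).descFactorial ((b - (c + Finsupp.single k 1) : Fin m →₀ ℕ) i) : ℂ) := by
      rw [← Finset.mul_prod_erase Finset.univ _ (Finset.mem_univ k),
        ← Finset.mul_prod_erase Finset.univ (fun i => ((b i).descFactorial
          ((b - (c + Finsupp.single k 1) : Fin m →₀ ℕ) i) : ℂ)) (Finset.mem_univ k), ← mul_assoc]
      congr 1
      · have hk := h k
        rw [Finsupp.add_apply, Finsupp.single_eq_same] at hk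
        rw [h1, Finsupp.add_apply, Finsupp.single_eq_same, Finsupp.tsub_apply, Finsupp.add_apply,
          Finsupp.single_eq_same, add_comm 1, Nat.descFactorial_succ, Nat.cast_mul]
        congr 1
        have : b k - (b k - (c k + 1)) = c k + 1 := by omega
        rw [this]
        push_cast
        ring
      · refine Finset.prod_congr rfl fun i hi => ?_
        have hik : i ≠ k := (Finset.mem_erase.mp hi).1
        rw [h1, Finsupp.add_apply, Finsupp.single_eq_of_ne hik, zero_add]
    rw [h2, h1, coeff_X_mul]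
    ring
  · rw [if_neg h]
    split_ifs with hc
    · have h1 : (b - c) k = 0 := by
        by_contra hne
        apply h
        intro i
        rw [Finsupp.add_apply]
        by_cases hik : i = k
        · subst hik
          rw [Finsupp.single_eq_same]
          rw [Finsupp.tsub_apply] at hne
          omega
        · rw [Finsupp.single_eq_of_ne hik]
          exact hc i
      have h2 : coeff (b - c) (X k * g) = 0 := by
        rw [coeff_X_mul', if_neg]
        rw [Finsupp.mem_support_iff]
        exact fun h' => h' h1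
      rw [h2]
      ring
    · ring

lemma linMul_le {m : ℕ} (T : MvPolynomial (Fin m) ℂ) : linMul T ≤ annDeg T 3 := by
  rw [linMul, Submodule.span_le]
  rintro _ ⟨ℓ, g, hℓ, hg, rfl⟩
  rw [mem_annDeg] at hg
  refine ⟨hℓ.mul hg.1, ?_⟩
  rw [SetLike.mem_coe, LinearMap.mem_ker]
  have hℓ' : ℓ ∈ Submodule.span ℂ (Set.range (X : Fin m → MvPolynomial (Fin m) ℂ)) := by
    rw [← homogeneousSubmodule_one_eq_span_X]
    exact hℓ
  clear hℓ
  induction hℓ' using Submodule.span_induction with
  | mem x hx =>
    obtain ⟨k, rfl⟩ := hx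
    ext c
    change coeff c (contract (X k * g) T) = _
    rw [contract_X_mul, hg.2, coeff_zero, mul_zero, coeff_zero]
  | zero => rw [zero_mul, map_zero]
  | add x y _ _ hx hy => rw [add_mul, map_add, hx, hy, add_zero]
  | smul r x _ hx => rw [smul_mul_assoc, map_smul, hx, smul_zero]

section construction

variable {a m : ℕ} (e : Fin a ⊕ Sym2 (Fin a) ≃ Fin m)

/-- the cubic monomials in the `x_i` -/
noncomputable def cub (s : Sym (Fin a) 3) : MvPolynomial (Fin m) ℂ := monomial (ex e s.1) 1

lemma cub_linearIndependent : LinearIndependent ℂ (cub e) := by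
  have h := (basisMonomials (Fin m) ℂ).linearIndependent
  have h2 := h.comp (fun s : Sym (Fin a) 3 => ex e s.1)
    (fun s t hst => Subtype.ext (ex_injective e hst))
  have h3 : (⇑(basisMonomials (Fin m) ℂ) ∘ fun s : Sym (Fin a) 3 => ex e s.1) = cub e := by
    funext s
    simp [cub]
  rw [← h3]
  exact h2

lemma cubicGens_TT : ((a + 2).choose 3 : ℤ) ≤ cubicGens (TT e) := by
  have hfin := finite_annDeg (TT e) 3
  set W := Submodule.span ℂ (Set.range (cub e)) with hW
  have hWle : W ≤ annDeg (TT e) 3 := by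
    rw [hW, Submodule.span_le]
    rintro _ ⟨s, rfl⟩
    refine ⟨?_, ?_⟩
    · apply isHomogeneous_monomial
      rw [ex_degree, s.2]
    · exact contract_ex e s.1 (by rw [s.2])
  have hdisj : Disjoint W (linMul (TT e)) := by
    rw [Submodule.disjoint_def]
    intro f hf hf'
    have h0 := coeff_ex_linMul e f hf'
    have hsupp : ∀ b, (∀ s : Sym (Fin a) 3, b ≠ ex e s.1) → coeff b f = 0 := by
      clear hf' h0
      rw [hW] at hf
      induction hf using Submodule.span_induction with
      | mem x hx =>
        obtain ⟨s, rfl⟩ := hx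
        intro b hb
        rw [cub, coeff_monomial, if_neg (fun h => hb s h.symm)]
      | zero => intro b _; rw [coeff_zero]
      | add x y _ _ hx hy => intro b hb; rw [coeff_add, hx b hb, hy b hb, add_zero]
      | smul r x _ hx => intro b hb; rw [coeff_smul, hx b hb, smul_zero]
    ext b
    rw [coeff_zero]
    by_cases h : ∀ s : Sym (Fin a) 3, b ≠ ex e s.1
    · exact hsupp b h
    · push Not at h
      obtain ⟨s, rfl⟩ := h
      exact h0 s.1
  have hfW : Module.Finite ℂ W := Submodule.finiteDimensional_of_le hWle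
  have hfL : Module.Finite ℂ (linMul (TT e)) := Submodule.finiteDimensional_of_le (linMul_le _)
  have h1 : Module.finrank ℂ W = (a + 2).choose 3 := by
    rw [hW, finrank_span_eq_card (cub_linearIndependent e), Sym.card_sym_eq_choose,
      Fintype.card_fin]
    rfl
  have h2 := Submodule.finrank_sup_add_finrank_inf_eq W (linMul (TT e))
  rw [hdisj.eq_bot, finrank_bot, add_zero] at h2
  have h3 : Module.finrank ℂ (W ⊔ linMul (TT e) : Submodule ℂ (MvPolynomial (Fin m) ℂ)) ≤
      Module.finrank ℂ (annDeg (TT e) 3) :=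
    Submodule.finrank_mono (sup_le hWle (linMul_le _))
  rw [cubicGens]
  omega

end construction

/-- For every `c` there are `m ≥ 1` and a concise cubic `T` in `m` variables such that `Ann(T)` has
at least `c * m` minimal cubic generators. -/
theorem result (c : ℕ) : ∃ (m : ℕ) (T : MvPolynomial (Fin m) ℂ), 1 ≤ m ∧ T.IsHomogeneous 3 ∧
    Concise T ∧ (c * m : ℤ) ≤ cubicGens T := by
  set a := 3 * (c + 1) with ha
  have hcard : Fintype.card (Fin a ⊕ Sym2 (Fin a)) = a + (a + 1).choose 2 := by
    rw [Fintype.card_sum, Fintype.card_fin, Sym2.card, Fintype.card_fin]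
  set e := Fintype.equivFinOfCardEq hcard
  refine ⟨_, TT e, by omega, TT_homogeneous e, TT_concise e, le_trans ?_ (cubicGens_TT e)⟩
  have h2 : 2 * (a + 1).choose 2 = (a + 1) * a := by
    have := Nat.choose_two_right (a + 1)
    rw [this, Nat.add_sub_cancel]
    exact Nat.mul_div_cancel' (Nat.even_mul_pred_self (a + 1)).two_dvd
  have h3 : 3 * (a + 2).choose 3 = (a + 2) * (a + 1).choose 2 := by
    have := Nat.add_one_mul_choose_eq (a + 1) 2
    rw [mul_comm 3]
    exact this.symm
  have h4 : c * (a + (a + 1).choose 2) ≤ (a + 2).choose 3 := by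
    nlinarith
  exact_mod_cast h4

end Pool.Agent.Results.MP_1eaf4f_ag.ManyCubicGenerators
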